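import Pool.Agent.Y816.PD.UniL

set_option autoImplicit false

/-!
# `2 n = p + q` with almost primes `p`, `q`, `sqrt (2 n) < p < 4 sqrt (2 n)`, and restricted digits

For every large `n` the integers `p = s + 1 + j` are considered, where `s` is the integer part of `sqrt (2 n)` and
`j < b ^ K`, `K = log_b s` (integer part), is an integer whose `i`-th digit in base `b` belongs to an arbitrary set
`A i` for all `i < K`, the product of the `|A i|` being at least `exp (- c K) b ^ K`.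
-/

namespace Pool.Agent.Results.MP_b58c63_nt.RestrictedDigits

open Finset Filter Polynomial
open Pool.Agent.Y816.PD (ND NA Alm Rgh WG)

/-- `p = s + 1 + j` with `s` the integer part of `sqrt (2 n)` -/
def pr (n j : ℕ) : ℕ := Nat.sqrt (2 * n) + 1 + j

/-- The product of the two summands `p` and `2 n - p`. -/
def G (n j : ℕ) : ℤ := (pr n j : ℤ) * (2 * (n : ℤ) - pr n j)

lemma adm (n : ℕ) (l : ℕ) (hl : l.Prime) : ∃ p : ℕ, ¬ (l : ℤ) ∣ G n p := by
  obtain ⟨j, hj⟩ := Pool.Agent.Y816.PD.adm_gold (N := 2 * (n : ℤ)) (even_two_mul _)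
    (Nat.sqrt (2 * n) + 1) l hl
  refine ⟨j, ?_⟩
  unfold G pr
  push_cast at hj ⊢
  exact hj

lemma G_eq {n j : ℕ} (h : pr n j ≤ 2 * n) : G n j = ((pr n j * (2 * n - pr n j) : ℕ) : ℤ) := by
  unfold G
  push_cast [Nat.cast_sub h]
  ring

/-- **Goldbach partitions into almost primes with `sqrt (2 n) < p < 4 sqrt (2 n)` and restricted digits.** -/
theorem result :
    ∃ c : ℝ, 0 < c ∧ ∃ r₀ : ℕ, 2 ≤ r₀ ∧ ∀ r : ℕ, r₀ ≤ r →
      (∀ n j : ℕ, pr n j ≤ n → (pr n j).Prime → (2 * n - pr n j).Prime → j ∈ Rgh (G n) r) ∧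
      ∀ b : ℕ, 2 ≤ b → ∃ κ C : ℝ, 0 < κ ∧ 0 < C ∧ ∀ᶠ n : ℕ in atTop, ∀ K : ℕ,
        K = Nat.log b (Nat.sqrt (2 * n)) →
        ∀ A : ℕ → Finset ℕ, (∀ i < K, A i ⊆ range b) → (b : ℝ) ^ K ≤ Real.exp (c * K) * NA K A →
        ((∃ d ∈ A 0, (G n d).natAbs.Coprime b) → (∃ d ∈ A (K - 1), d ≠ 0) →
          κ * NA K A * WG (G n) (b ^ K) ≤
            ND b K A {j | (2 * n < pr n j ^ 2 ∧ pr n j ^ 2 < 16 * (2 * n) ∧ pr n j < n) ∧
              j ∈ Alm (G n) r (b ^ K)}) ∧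
        (ND b K A (Rgh (G n) r) : ℝ) ≤ C * NA K A * WG (G n) (b ^ K) := by
  obtain ⟨c, hc, r₀, hr₀, h⟩ := Pool.Agent.Y816.PD.uni_top 2 8 (by norm_num)
  refine ⟨c, hc, r₀, hr₀, fun r hr => ⟨fun n p hpn h1 h2 l hl hd => ?_, fun b hb => ?_⟩⟩
  · have h2r : 2 ≤ r := hr₀.trans hr
    rw [G_eq (by omega), Int.natCast_dvd_natCast] at hd
    refine Pool.Agent.Y816.PD.lt_pow_of_le hl ?_ h2r
    have hpj : p ≤ pr n p := by unfold pr; omega
    rcases (hl.dvd_mul).1 hd with hd | hd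
    · rw [(Nat.prime_dvd_prime_iff_eq hl h1).1 hd]
      exact hpj
    · rw [(Nat.prime_dvd_prime_iff_eq hl h2).1 hd]
      omega
  · obtain ⟨κ, C₁, hκ, hC, h1⟩ := h r hr b hb
    refine ⟨κ, C₁, hκ, hC, ?_⟩
    obtain ⟨K0, hK0⟩ := eventually_atTop.1 h1
    filter_upwards [eventually_ge_atTop (b ^ (2 * (K0 + 5)))] with n hn K hK A hA hprod
    obtain ⟨s, hs⟩ : ∃ s, s = Nat.sqrt (2 * n) := ⟨_, rfl⟩
    have hpr : ∀ j, pr n j = s + 1 + j := fun j => by rw [hs]; rfl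
    have hs1 : s * s ≤ 2 * n := by rw [hs]; exact Nat.sqrt_le (2 * n)
    have hs2 : 2 * n < (s + 1) * (s + 1) := by rw [hs]; exact Nat.lt_succ_sqrt (2 * n)
    rw [← hs] at hK
    have hsb : b ^ (K0 + 5) ≤ s := by
      rw [hs, Nat.le_sqrt]
      calc b ^ (K0 + 5) * b ^ (K0 + 5) = b ^ (2 * (K0 + 5)) := by rw [← pow_add]; congr 1; ring
        _ ≤ n := hn
        _ ≤ 2 * n := by omega
    have hs32 : 32 ≤ s := by
      refine le_trans ?_ hsb
      calc 32 = 2 ^ 5 := by norm_num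
        _ ≤ b ^ 5 := Nat.pow_le_pow_left hb 5
        _ ≤ b ^ (K0 + 5) := Nat.pow_le_pow_right (by omega) (by omega)
    have hKK : K0 + 5 ≤ K := by
      rw [hK]
      exact Nat.le_log_of_pow_le (by omega) hsb
    have hb1 : b ^ K ≤ s := by
      rw [hK]
      exact Nat.pow_log_le_self b (by omega)
    have hb2 : s < b ^ (K + 1) := by
      rw [hK]
      exact Nat.lt_pow_succ_log_self (by omega) _
    have hpoly : ∃ P : ℤ[X], P.natDegree ≤ 2 ∧ ∀ k : ℕ, P.eval (k : ℤ) = G n k := by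
      refine ⟨(X + C ((s : ℤ) + 1)) * (C (2 * (n : ℤ) - s - 1) - X), ?_, fun k => ?_⟩
      · compute_degree
      · unfold G
        rw [hpr]
        simp only [eval_mul, eval_add, eval_sub, eval_X, eval_C]
        push_cast
        ring
    have hlt : ∀ j, j < b ^ K → pr n j < 2 * s + 1 := by
      intro j hj
      rw [hpr]
      omega
    have hle : ∀ j, j < b ^ K → pr n j < n := by
      intro j hj
      have := hlt j hj
      nlinarith
    have hsize : ∀ k : ℕ, k < b ^ K → (G n k).natAbs ≤ b ^ (8 * K) := by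
      intro k hk
      have h4 := hle k hk
      rw [G_eq (by omega), Int.natAbs_natCast]
      have e2 : s + 1 ≤ b ^ (2 * K) := by
        have : b ^ (K + 1) ≤ b ^ (2 * K) := Nat.pow_le_pow_right (by omega) (by omega)
        omega
      have e3 : 2 * n ≤ b ^ (2 * K) * b ^ (2 * K) := hs2.le.trans (Nat.mul_le_mul e2 e2)
      calc pr n k * (2 * n - pr n k) ≤ (b ^ (2 * K) * b ^ (2 * K)) * (b ^ (2 * K) * b ^ (2 * K)) :=
            Nat.mul_le_mul (by omega) (by omega)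
        _ = b ^ (8 * K) := by rw [← pow_add, ← pow_add]; congr 1; ring
    obtain ⟨h2, h3⟩ := hK0 K (by omega) (G n) hpoly (adm n) hsize A hA hprod
    refine ⟨fun hd htop => (h2 hd htop).trans ?_, h3⟩
    apply Nat.cast_le.2
    apply Pool.Agent.Y816.PD.ND_mono'
    intro k hkK hk
    refine ⟨⟨?_, ?_, hle k hkK⟩, hk.2⟩
    · rw [hpr]
      nlinarith
    · have := hlt k hkK
      nlinarith

end Pool.Agent.Results.MP_b58c63_nt.RestrictedDigits
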