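import Pool.Agent.Y882.Cum

/-!
# Goldbach with a prime `p` in `(√N, 4 √N)` and a rough second summand: few exceptions

For `0 < u < 3 / 8` and `ε > 0`: for all but `O(X ^ (max (1 / 2) (4 u - 1 / 2) + ε))` even numbers
`N ≤ X` there are at least `δ ∏_{p ∣ N, p > 2} (p - 1) / (p - 2) * √N / (log N) ^ 2` primes `p` with
`√N < p < 4 √N` such that all prime factors of `N - p` are larger than `N ^ u`.  For `u = 1 / 3` the
number `N - p` is a prime or the product of two primes larger than `N ^ (1 / 3)`, and the number of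
exceptions is `O(X ^ (5 / 6 + ε))`.
-/

set_option autoImplicit false

open Finset

namespace Pool.Agent.Results.MP_b58c63_nt.RoughSummandShortPrime

/-- the variable part of the singular series of the Goldbach problem -/
noncomputable def sing (N : ℕ) : ℝ :=
  ∏ p ∈ N.primeFactors.erase 2, (((p : ℝ) - 1) / ((p : ℝ) - 2))

open Classical in
/-- the number of primes `p` with `√N < p < 4 √N` such that `N - p ≥ 2` and all prime factors of
`N - p` are larger than `N ^ u` -/
noncomputable def shortCount (u : ℝ) (N : ℕ) : ℕ :=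
  ((range N).filter (fun p : ℕ => p.Prime ∧ Real.sqrt N < p ∧ (p : ℝ) < 4 * Real.sqrt N ∧
    2 ≤ N - p ∧ ∀ q : ℕ, q.Prime → q ∣ (N - p) → (N : ℝ) ^ u < q)).card

open Classical in
/-- For all but `O(X ^ (max (1 / 2) (4 u - 1 / 2) + ε))` even `N ≤ X` there are
`≫ 𝔖(N) √N / (log N) ^ 2` primes `p` in `(√N, 4 √N)` such that all prime factors of `N - p` are
larger than `N ^ u`. -/
theorem result :
    ∀ u ε : ℝ, 0 < u → u < 3 / 8 → 0 < ε → ∃ δ C : ℝ, 0 < δ ∧ 0 < C ∧ ∀ X : ℕ, 1 ≤ X →
      (((Icc 1 X).filter (fun N => Even N ∧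
        (shortCount u N : ℝ) < δ * sing N * (Real.sqrt N / Real.log N ^ 2))).card : ℝ) ≤
      C * (X : ℝ) ^ (max (1 / 2) (4 * u - 1 / 2) + ε) := by
  intro u ε hu hu2 hε
  obtain ⟨δ, hδ, Y0, H⟩ := Pool.Agent.Y882.dyadic (1 / 2) u ε (by norm_num) (by norm_num) hu
    (by linarith) hε
  obtain ⟨C, hC, hcum⟩ := Pool.Agent.Y882.cum (fun N => Even N ∧
    (shortCount u N : ℝ) < δ * sing N * (Real.sqrt N / Real.log N ^ 2))
    (max (1 / 2) (4 * u - 1 / 2) + ε)
    (by have := le_max_left (1 / 2 : ℝ) (4 * u - 1 / 2); linarith) (max Y0 64) (by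
    intro Y hY
    have hY0 : Y0 ≤ Y := (le_max_left _ _).trans hY
    have hY3 : 64 ≤ Y := (le_max_right _ _).trans hY
    have hYr : (64 : ℝ) ≤ Y := by exact_mod_cast hY3
    have hlY : 0 < Real.log Y := Real.log_pos (by linarith)
    have hsY : 0 < Real.sqrt Y := Real.sqrt_pos.2 (by linarith)
    have hss : Real.sqrt Y * Real.sqrt Y = Y := Real.mul_self_sqrt (by linarith)
    have hs8 : 8 ≤ Real.sqrt Y := by
      rw [Real.le_sqrt' (by norm_num)]
      linarith
    have hx2 : 4 * Real.sqrt Y ≤ Y / 2 := by nlinarith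
    have h1 := H Y hY0 (4 * Real.sqrt Y) (by rw [← Real.sqrt_eq_rpow]; linarith) (by linarith)
      ((Ioc Y (2 * Y)).filter (fun N => Even N ∧
        (shortCount u N : ℝ) < δ * sing N * (Real.sqrt N / Real.log N ^ 2))) ?_
    · have e : (1 : ℝ) - 1 / 2 = 1 / 2 := by norm_num
      rw [e] at h1
      exact h1
    · intro n hn
      rw [mem_filter, mem_Ioc] at hn
      obtain ⟨⟨h2, h3⟩, h4, h5⟩ := hn
      refine ⟨h2, h3, h4, ?_⟩
      have h12 : (n : ℝ) ≤ 2 * Y := by exact_mod_cast h3
      have h13 : (Y : ℝ) ≤ n := by exact_mod_cast h2.le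
      have h13' : Real.sqrt Y ≤ Real.sqrt n := Real.sqrt_le_sqrt h13
      have h12' : Real.sqrt n < 2 * Real.sqrt Y := by
        rw [Real.sqrt_lt' (by positivity), mul_pow, Real.sq_sqrt (by linarith)]
        linarith
      have h6 : Pool.Agent.Y882.cnt (4 * Real.sqrt Y) (3 * (Y : ℝ) ^ u) n ≤ shortCount u n := by
        unfold Pool.Agent.Y882.cnt shortCount
        apply card_le_card
        intro p hp
        rw [mem_filter] at hp ⊢
        obtain ⟨-, h8, h8', h9, h10⟩ := hp
        have h11 : 2 * p < Y := by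
          have : 2 * (p : ℝ) < Y := by linarith
          exact_mod_cast this
        refine ⟨mem_range.2 (by omega), h8, by linarith, by linarith, by omega,
          fun q hq hqn => ?_⟩
        refine lt_of_lt_of_le ?_ (h10 q hq hqn)
        have hYu : (0 : ℝ) < (Y : ℝ) ^ u := by positivity
        calc (n : ℝ) ^ u ≤ (2 * (Y : ℝ)) ^ u := Real.rpow_le_rpow (by positivity) h12 hu.le
          _ = 2 ^ u * (Y : ℝ) ^ u := Real.mul_rpow (by norm_num) (by positivity)
          _ ≤ 2 * (Y : ℝ) ^ u := by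
              apply mul_le_mul_of_nonneg_right _ hYu.le
              calc (2 : ℝ) ^ u ≤ 2 ^ (1 : ℝ) :=
                    Real.rpow_le_rpow_of_exponent_le (by norm_num) (by linarith)
                _ = 2 := Real.rpow_one _
          _ < 3 * (Y : ℝ) ^ u := by linarith
      have h7 : (Pool.Agent.Y882.cnt (4 * Real.sqrt Y) (3 * (Y : ℝ) ^ u) n : ℝ) ≤
          shortCount u n := by
        exact_mod_cast h6
      refine h7.trans_lt (h5.trans_le ?_)
      have hs : Pool.Agent.Y882.sgs n = sing n := rfl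
      rw [hs]
      have hs1 : 1 ≤ sing n := by rw [← hs]; exact Pool.Agent.Y882.one_le_sgs n
      have h14 : Real.log Y ≤ Real.log n := Real.log_le_log (by linarith) h13
      have h15 : Real.sqrt n / Real.log n ^ 2 ≤ 4 * Real.sqrt Y / Real.log Y ^ 2 := by
        apply div_le_div₀ (by positivity) (by linarith) (by positivity)
        exact pow_le_pow_left₀ hlY.le h14 2
      calc δ * sing n * (Real.sqrt n / Real.log n ^ 2) ≤
          δ * sing n * (4 * Real.sqrt Y / Real.log Y ^ 2) :=
            mul_le_mul_of_nonneg_left h15 (by positivity)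
        _ = δ * (4 * Real.sqrt Y) / Real.log Y ^ 2 * sing n := by ring)
  exact ⟨δ, C, hδ, hC, fun X hX => hcum X hX⟩

end Pool.Agent.Results.MP_b58c63_nt.RoughSummandShortPrime
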